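import Pool.Agent.helper13.RF.Spec1

set_option autoImplicit false
open NumberField
open scoped nonZeroDivisors
namespace Pool.Agent.RF

section UNIaux

variable {K L : Type} [Field K] [NumberField K] [Field L] [NumberField L] [Algebra K L]

lemma UNI_coe (σ : L ≃ₐ[K] L) (u : (𝓞 L)ˣ) : algebraMap (𝓞 L) L ((gU σ u : (𝓞 L)ˣ) : 𝓞 L) = σ (algebraMap (𝓞 L) L (u : 𝓞 L)) := by
  exact algebraMap_galRestrict_apply (𝓞 K) σ (u : 𝓞 L)

omit [NumberField L] in
lemma UNI_ext {u v : (𝓞 L)ˣ} (h : algebraMap (𝓞 L) L (u : 𝓞 L) = algebraMap (𝓞 L) L (v : 𝓞 L)) : u = v := by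
  apply Units.ext
  exact FaithfulSMul.algebraMap_injective (𝓞 L) L h

lemma UNI_fix (σ : L ≃ₐ[K] L) (hg : IsGalois K L) (hgen : ∀ τ : L ≃ₐ[K] L, τ ∈ Subgroup.zpowers σ) (x : L) (hx : σ x = x) :
    ∃ y : K, algebraMap K L y = x := by
  have h1 : ∀ τ : L ≃ₐ[K] L, τ x = x := by
    intro τ
    have h2 : Subgroup.zpowers σ ≤ MulAction.stabilizer (L ≃ₐ[K] L) x := by
      rw [Subgroup.zpowers_le]
      exact hx
    exact h2 (hgen τ)
  have h3 := (IsGalois.mem_bot_iff_fixed (F := K) x).2 h1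
  exact IntermediateField.mem_bot.1 h3

end UNIaux

theorem UNI (hHQ5 : HQ5_stmt) (hTRL : TRL_stmt) (hURK : URK_stmt) : UNI_stmt := by
  intro K L _ _ _ _ _ σ hE
  have := hE.gal
  have hKr : IsTotallyReal K := hE.real
  have hLr : IsTotallyReal L := hTRL K L hE.gal hE.deg hKr
  have hdeg : Module.finrank ℚ L = 10 := by
    rw [← Module.finrank_mul_finrank ℚ K L, hE.quad, hE.deg]
  have hs5 : σ ^ 5 = 1 := by
    have h1 : Nat.card (L ≃ₐ[K] L) = 5 := by
      rw [IsGalois.card_aut_eq_finrank, hE.deg]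
    rw [← h1]
    exact pow_card_eq_one'
  obtain ⟨hK1, hK2⟩ := hURK K hKr
  obtain ⟨hL1, hL2⟩ := hURK L hLr
  let ι : (𝓞 K)ˣ →* (𝓞 L)ˣ := Units.map (algebraMap (𝓞 K) (𝓞 L) : 𝓞 K →* 𝓞 L)
  have hι : Function.Injective ι := by
    apply Units.map_injective
    exact FaithfulSMul.algebraMap_injective (𝓞 K) (𝓞 L)
  have hker : (df (gU σ)).ker = ι.range := by
    ext u
    rw [MonoidHom.mem_ker, MonoidHom.mem_range]
    constructor
    · intro h
      have h1 : gU σ u = u := by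
        have h2 : gU σ u / u = 1 := h
        exact div_eq_one.1 h2
      have h2 : σ (algebraMap (𝓞 L) L (u : 𝓞 L)) = algebraMap (𝓞 L) L (u : 𝓞 L) := by
        rw [← UNI_coe, h1]
      have h1i : gU σ u⁻¹ = u⁻¹ := by rw [map_inv, h1]
      have h2i : σ (algebraMap (𝓞 L) L ((u⁻¹ : (𝓞 L)ˣ) : 𝓞 L)) = algebraMap (𝓞 L) L ((u⁻¹ : (𝓞 L)ˣ) : 𝓞 L) := by
        rw [← UNI_coe, h1i]
      obtain ⟨y, hy⟩ := UNI_fix σ hE.gal hE.gen _ h2
      obtain ⟨z, hz⟩ := UNI_fix σ hE.gal hE.gen _ h2i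
      have hyi : IsIntegral ℤ y := by
        have h3 : IsIntegral ℤ (algebraMap K L y) := by
          rw [hy]
          exact (u : 𝓞 L).2
        exact (isIntegral_algebraMap_iff (FaithfulSMul.algebraMap_injective K L)).1 h3
      have hzi : IsIntegral ℤ z := by
        have h3 : IsIntegral ℤ (algebraMap K L z) := by
          rw [hz]
          exact ((u⁻¹ : (𝓞 L)ˣ) : 𝓞 L).2
        exact (isIntegral_algebraMap_iff (FaithfulSMul.algebraMap_injective K L)).1 h3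
      have hyz : y * z = 1 := by
        apply FaithfulSMul.algebraMap_injective K L
        rw [map_mul, hy, hz, map_one, ← map_mul, Units.mul_inv, map_one]
      let yO : 𝓞 K := ⟨y, hyi⟩
      let zO : 𝓞 K := ⟨z, hzi⟩
      have hyzO : yO * zO = 1 := by
        apply RingOfIntegers.ext
        exact hyz
      refine ⟨Units.mkOfMulEqOne yO zO hyzO, ?_⟩
      apply UNI_ext
      change algebraMap (𝓞 L) L (algebraMap (𝓞 K) (𝓞 L) yO) = _
      rw [← hy]
      rfl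
    · rintro ⟨v, rfl⟩
      change gU σ (ι v) / ι v = 1
      rw [div_eq_one]
      apply UNI_ext
      rw [UNI_coe]
      change σ (algebraMap (𝓞 L) L (algebraMap (𝓞 K) (𝓞 L) (v : 𝓞 K))) = algebraMap (𝓞 L) L (algebraMap (𝓞 K) (𝓞 L) (v : 𝓞 K))
      have h3 : algebraMap (𝓞 L) L (algebraMap (𝓞 K) (𝓞 L) (v : 𝓞 K)) = algebraMap K L (algebraMap (𝓞 K) K (v : 𝓞 K)) := rfl
      rw [h3, AlgEquiv.commutes]
  apply hHQ5 (𝓞 L)ˣ (gU σ)
  · intro u
    apply UNI_ext
    rw [UNI_coe, UNI_coe, UNI_coe, UNI_coe, UNI_coe]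
    have h4 : ∀ x : L, (σ ^ 5) x = σ (σ (σ (σ (σ x)))) := by
      intro x
      rfl
    rw [← h4, hs5]
    rfl
  · exact hL1
  · rw [hL2, hdeg]
  · rw [hker]
    have h5 : ι.range.map (powMonoidHom 5) = (powMonoidHom 5 : (𝓞 K)ˣ →* (𝓞 K)ˣ).range.map ι := by
      ext u
      simp only [Subgroup.mem_map, MonoidHom.mem_range]
      constructor
      · rintro ⟨w, ⟨v, rfl⟩, rfl⟩
        refine ⟨v ^ 5, ⟨v, rfl⟩, ?_⟩
        simp [powMonoidHom_apply]
      · rintro ⟨w, ⟨v, rfl⟩, rfl⟩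
        refine ⟨ι v, ⟨v, rfl⟩, ?_⟩
        simp [powMonoidHom_apply]
    have h6 : ι.range = (⊤ : Subgroup (𝓞 K)ˣ).map ι := MonoidHom.range_eq_map ι
    rw [h5]
    conv_lhs => rw [h6]
    rw [Subgroup.relIndex_map_map_of_injective _ _ hι, Subgroup.relIndex_top_right, hK2, hE.quad]
    norm_num

end Pool.Agent.RF
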