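import Pool.Agent.helper13.RF.SpecU

set_option autoImplicit false

namespace Pool.Agent.RF

open NumberField

lemma UCO_ww {D₀ : ℤ} {F : Type} [Field F] [NumberField F] (C : Ctx D₀ F) :
    C.w ^ 2 = C.ι (-(w2 * (D₀ : OO))) := by
  rw [C.ww, map_neg, map_mul, map_intCast]

lemma UCO_pow {D₀ : ℤ} {F : Type} [Field F] [NumberField F] (C : Ctx D₀ F) (W a b : OO)
    (hww : C.w ^ 2 = C.ι W) :
    (C.ι a + C.ι b * C.w) ^ 5 = C.ι (a ^ 5 + 10 * a ^ 3 * b ^ 2 * W + 5 * a * b ^ 4 * W ^ 2) +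
      C.ι (b * (5 * a ^ 4 + 10 * a ^ 2 * b ^ 2 * W + b ^ 4 * W ^ 2)) * C.w := by
  simp only [map_add, map_mul, map_pow, map_ofNat]
  generalize C.ι a = x
  generalize C.ι b = y
  generalize C.ι W = c at hww ⊢
  linear_combination (10 * x ^ 3 * y ^ 2 + 10 * x ^ 2 * y ^ 3 * C.w +
    5 * x * y ^ 4 * (C.w ^ 2 + c) + y ^ 5 * C.w * (C.w ^ 2 + c)) * hww

/-- coordinates of the element `z` of two points -/
theorem UCO (h1 : UUE_stmt) : UCO_stmt := by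
  intro D₀ F _ _ C p q f hp hq hpD hqD z hz a b hab
  obtain ⟨-, ⟨U₁, V₁, hu1, hs1⟩, hn1, -, -, -, -, -, hssw, -, -, -, -, -, -, -, -, h4, hinj⟩ :=
    h1 D₀ F C p f hp hpD
  obtain ⟨-, ⟨U₂, V₂, hu2, hs2⟩, hn2, -⟩ := h1 D₀ F C q f hq hqD
  have hww := UCO_ww C
  unfold HH
  generalize -(w2 * (D₀ : OO)) = W at hww ⊢
  have h5 := UCO_pow C W a b hww
  refine ⟨?_, ?_⟩
  · have h6 := C.ind ((a ^ 5 + 10 * a ^ 3 * b ^ 2 * W + 5 * a * b ^ 4 * W ^ 2) -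
        10 ^ 5 * (U₁ * U₂ - V₁ * V₂ * (f : OO) ^ 2 * W))
      (b * (5 * a ^ 4 + 10 * a ^ 2 * b ^ 2 * W + b ^ 4 * W ^ 2) -
        10 ^ 5 * (U₁ * V₂ - V₁ * U₂) * (f : OO)) (by
        rw [← hab, mul_pow, hz, hs1, hu2] at h5
        simp only [map_sub, map_mul, map_pow, map_natCast, map_ofNat, map_add] at h5 ⊢
        linear_combination -h5 - (10 : 𝓞 F) ^ 5 * C.ι V₁ * C.ι V₂ * (f : 𝓞 F) ^ 2 * hww)
    exact ⟨10 ^ 5 * (U₁ * V₂ - V₁ * U₂), by linear_combination h6.2⟩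
  · have h7 : z * C.σ (C.σ z) = C.ι (p.n * q.n) := by
      apply C.z5
      have h8 : C.σ (C.σ z) ^ 5 = uu C f p * C.σ (C.σ (uu C f q)) := by
        have h9 := congrArg (fun x => C.σ (C.σ x)) hz
        simp only [map_mul, map_pow, h4] at h9
        exact h9
      rw [mul_pow, hz, h8, map_mul, mul_pow, ← hn1, ← hn2]
      ring
    have h10 : 10 * C.σ (C.σ z) = C.ι a - C.ι b * C.w := by
      have h := congrArg (fun x => C.σ (C.σ x)) hab
      simp only [map_mul, map_add, map_ofNat, C.σι, star_star, hssw] at h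
      rw [h]; ring
    apply hinj
    rw [map_mul, ← h7]
    simp only [map_sub, map_mul, map_pow, map_ofNat]
    linear_combination (C.ι b) ^ 2 * hww - (C.ι a - C.ι b * C.w) * hab - 10 * z * h10

end Pool.Agent.RF
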