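import Pool.Agent.helper95.RF.SpecC

set_option autoImplicit false

/-!
# RF (MP_16912e_nt), block C, row rf:CPX: the parameters and their sizes
-/

namespace Pool.Agent.RF

open Finset NumberField Pool.Agent.helper3.FT

theorem CPX_cube {a b : ℝ} (hb : 0 ≤ b) (h : a ^ 3 ≤ b ^ 3) : a ≤ b := by
  exact le_of_pow_le_pow_left₀ (by norm_num) hb h

theorem CPX : CPX_stmt := by
  intro E B η hE hB hη hη1
  have hE1 : (1 : ℝ) ≤ E := by exact_mod_cast hE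
  have hB1 : (1 : ℝ) ≤ B := by exact_mod_cast hB
  have hE0 : (0 : ℝ) < E := by linarith
  have hB0 : (0 : ℝ) < B := by linarith
  -- the bound for N
  have h1 : ∀ᶠ N : ℝ in Filter.atTop, 200 * (E : ℝ) ≤ N ^ (η / 12) :=
    (tendsto_rpow_atTop (by positivity : 0 < η / 12)).eventually (Filter.eventually_ge_atTop _)
  have h2 : ∀ᶠ N : ℝ in Filter.atTop, 8 * (B : ℝ) ^ 2 ≤ N ^ (4 / 3 * η) :=
    (tendsto_rpow_atTop (by positivity : 0 < 4 / 3 * η)).eventually (Filter.eventually_ge_atTop _)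
  have h3 : ∀ᶠ N : ℝ in Filter.atTop, 16 * (B : ℝ) ^ 2 + E + (400 * E) ^ 2 ≤ N ^ (1 / 4 : ℝ) :=
    (tendsto_rpow_atTop (by norm_num : (0 : ℝ) < 1 / 4)).eventually (Filter.eventually_ge_atTop _)
  have h4 := (h1.and h2).and (h3.and (Filter.eventually_ge_atTop (1 : ℝ)))
  obtain ⟨N₀, hN₀⟩ := Filter.eventually_atTop.1 h4
  refine ⟨N₀, ?_⟩
  intro N hN Q hQ
  obtain ⟨⟨g1, g2⟩, g3, gN⟩ := hN₀ N hN
  have hN0 : (0 : ℝ) < N := by linarith
  have hQ1 := hQ.q1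
  have hQ2 := hQ.q2
  have hQ0 : (0 : ℝ) < Q := lt_of_lt_of_le (Real.rpow_pos_of_pos hN0 _) hQ1
  have hsq : ∀ x : ℝ, (N ^ x) ^ 2 = N ^ (2 * x) := by
    intro x
    rw [← Real.rpow_natCast, ← Real.rpow_mul hN0.le]
    congr 1
    push_cast
    ring
  have hcu : ∀ x : ℝ, (N ^ x) ^ 3 = N ^ (3 * x) := by
    intro x
    rw [← Real.rpow_natCast, ← Real.rpow_mul hN0.le]
    congr 1
    push_cast
    ring
  have hfo : ∀ x : ℝ, (N ^ x) ^ 4 = N ^ (4 * x) := by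
    intro x
    rw [← Real.rpow_natCast, ← Real.rpow_mul hN0.le]
    congr 1
    push_cast
    ring
  have hmu : ∀ x : ℝ, N * N ^ x = N ^ (1 + x) := by
    intro x
    rw [Real.rpow_add hN0, Real.rpow_one]
  -- the size of S
  have hSlo : ∀ S : ℝ, 0 < S → S ^ 3 = 500 * N * (Q : ℝ) ^ 4 → N ^ (1 - 4 / 3 * η) ≤ S := by
    intro S hS0 hS3
    apply CPX_cube hS0.le
    rw [hcu, hS3]
    have e1 : (N ^ (1 / 2 - η)) ^ 4 ≤ (Q : ℝ) ^ 4 := pow_le_pow_left₀ (Real.rpow_nonneg hN0.le _) hQ1 4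
    rw [hfo] at e1
    have e2 : N ^ (3 * (1 - 4 / 3 * η)) = N * N ^ (4 * (1 / 2 - η)) := by
      rw [hmu]
      congr 1
      ring
    rw [e2]
    have e3 : N * N ^ (4 * (1 / 2 - η)) ≤ N * (Q : ℝ) ^ 4 := mul_le_mul_of_nonneg_left e1 hN0.le
    have e4 : 0 ≤ N * (Q : ℝ) ^ 4 := by positivity
    linarith
  have hSup : ∀ S : ℝ, 0 < S → S ^ 3 = 500 * N * (Q : ℝ) ^ 4 → S ≤ 8 * B ^ 2 * N ^ (1 - 4 / 3 * η) := by
    intro S hS0 hS3
    apply CPX_cube (by positivity)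
    rw [mul_pow, hcu, hS3]
    have e1 : (Q : ℝ) ^ 4 ≤ (B * N ^ (1 / 2 - η)) ^ 4 := pow_le_pow_left₀ hQ0.le hQ2 4
    rw [mul_pow, hfo] at e1
    have e2 : N ^ (3 * (1 - 4 / 3 * η)) = N * N ^ (4 * (1 / 2 - η)) := by
      rw [hmu]
      congr 1
      ring
    rw [e2]
    have e3 : N * (Q : ℝ) ^ 4 ≤ N * (B ^ 4 * N ^ (4 * (1 / 2 - η))) := mul_le_mul_of_nonneg_left e1 hN0.le
    have e5 : (B : ℝ) ^ 4 ≤ B ^ 6 := pow_le_pow_right₀ hB1 (by norm_num)
    have e6 : 0 ≤ N * N ^ (4 * (1 / 2 - η)) := by positivity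
    have e7 : (B : ℝ) ^ 4 * (N * N ^ (4 * (1 / 2 - η))) ≤ B ^ 6 * (N * N ^ (4 * (1 / 2 - η))) := mul_le_mul_of_nonneg_right e5 e6
    have e8 : 0 ≤ (B : ℝ) ^ 6 * (N * N ^ (4 * (1 / 2 - η))) := by positivity
    calc 500 * N * (Q : ℝ) ^ 4 = 500 * (N * (Q : ℝ) ^ 4) := by ring
      _ ≤ 500 * (N * (B ^ 4 * N ^ (4 * (1 / 2 - η)))) := by linarith
      _ = 500 * ((B : ℝ) ^ 4 * (N * N ^ (4 * (1 / 2 - η)))) := by ring
      _ ≤ 512 * (B ^ 6 * (N * N ^ (4 * (1 / 2 - η)))) := by linarith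
      _ = (8 * (B : ℝ) ^ 2) ^ 3 * (N * N ^ (4 * (1 / 2 - η))) := by ring
  have hN4 : N ^ (1 / 4 : ℝ) ≤ N ^ (1 - 4 / 3 * η) := Real.rpow_le_rpow_of_exponent_le gN (by linarith)
  have hBB : 0 ≤ 16 * (B : ℝ) ^ 2 := by positivity
  have hEE : 0 ≤ (400 * (E : ℝ)) ^ 2 := by positivity
  refine ⟨?_, ?_⟩
  · -- existence
    have hP : 0 < 500 * N * (Q : ℝ) ^ 4 := by positivity
    obtain ⟨S, hS0, hS3⟩ : ∃ S : ℝ, 0 < S ∧ S ^ 3 = 500 * N * (Q : ℝ) ^ 4 := by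
      refine ⟨(500 * N * (Q : ℝ) ^ 4) ^ (1 / 3 : ℝ), Real.rpow_pos_of_pos hP _, ?_⟩
      rw [← Real.rpow_natCast, ← Real.rpow_mul hP.le]
      norm_num
    have hS1 : (400 * (E : ℝ)) ^ 2 + E ≤ S := by
      have := hSlo S hS0 hS3
      linarith
    have hsS : 400 * (E : ℝ) ≤ √S := by
      apply Real.le_sqrt_of_sq_le
      linarith
    have hs0 : 0 ≤ √S := Real.sqrt_nonneg S
    have hfl1 : (⌊√S / (100 * E)⌋₊ : ℝ) ≤ √S / (100 * E) := Nat.floor_le (by positivity)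
    have hfl2 := Nat.lt_floor_add_one (√S / (100 * (E : ℝ)))
    have hd1 : √S / (100 * (E : ℝ)) * (100 * E) = √S := by field_simp
    have hfl3 : 1 ≤ ⌊√S / (100 * (E : ℝ))⌋₊ := by
      apply Nat.le_floor
      rw [le_div_iff₀ (by positivity)]
      push_cast
      linarith
    have hfv1 : (⌊S / (2 * E)⌋₊ : ℝ) ≤ S / (2 * E) := Nat.floor_le (by positivity)
    have hfv2 := Nat.lt_floor_add_one (S / (2 * (E : ℝ)))
    have hd2 : S / (2 * (E : ℝ)) * (2 * E) = S := by field_simp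
    have hEsq : (400 * (E : ℝ)) ^ 2 = 160000 * E * E := by ring
    have hEE2 : (E : ℝ) ≤ E * E := by nlinarith
    have hfv3 : 3 ≤ ⌊S / (2 * (E : ℝ))⌋₊ := by
      apply Nat.le_floor
      rw [le_div_iff₀ (by positivity)]
      push_cast
      nlinarith
    have hc1 := Int.le_ceil (S / (2 * (E : ℝ)))
    have hc2 := (Int.ceil_lt_add_one (S / (2 * (E : ℝ)))).le
    refine ⟨⌊√S / (100 * E)⌋₊ - 1, ⌊S / (2 * E)⌋₊ - 3, ⌈S / (2 * (E : ℝ))⌉, S, ⟨hS0, hS3, ?_, ?_, ?_, ?_, ?_⟩⟩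
    · rw [Nat.cast_sub hfl3]
      have := mul_le_mul_of_nonneg_right hfl1 (by positivity : (0 : ℝ) ≤ 100 * E)
      rw [hd1] at this
      push_cast
      linarith
    · rw [Nat.cast_sub hfl3]
      have := mul_le_mul_of_nonneg_right hfl2.le (by positivity : (0 : ℝ) ≤ 100 * E)
      rw [hd1] at this
      push_cast
      linarith
    · have := mul_le_mul_of_nonneg_right hc1 (by positivity : (0 : ℝ) ≤ 2 * E)
      rw [hd2] at this
      linarith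
    · rw [Nat.cast_sub hfv3]
      have e1 := mul_le_mul_of_nonneg_right hc2 (by positivity : (0 : ℝ) ≤ 2 * E)
      have e2 := mul_le_mul_of_nonneg_right hfv1 (by positivity : (0 : ℝ) ≤ 2 * E)
      rw [add_mul, hd2] at e1
      rw [hd2] at e2
      push_cast
      linarith
    · rw [Nat.cast_sub hfv3]
      have e2 := mul_le_mul_of_nonneg_right hfv2.le (by positivity : (0 : ℝ) ≤ 2 * E)
      rw [hd2] at e2
      push_cast
      nlinarith
  · intro L V z₀ S hp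
    have s1 := hSlo S hp.S0 hp.S3
    have s2 := hSup S hp.S0 hp.S3
    have hL0 : (0 : ℝ) ≤ L := Nat.cast_nonneg L
    have hV0 : (0 : ℝ) ≤ V := Nat.cast_nonneg V
    have hV2 : (V : ℝ) ≤ S / 2 := by
      have e1 := hp.z1
      have e2 := hp.z2
      have e3 : (V : ℝ) ≤ E * V := by nlinarith
      nlinarith
    have hpos : 0 ≤ N ^ (1 - 4 / 3 * η) := Real.rpow_nonneg hN0.le _
    have hSN : S ≤ N := by
      refine s2.trans ?_
      calc 8 * (B : ℝ) ^ 2 * N ^ (1 - 4 / 3 * η) ≤ N ^ (4 / 3 * η) * N ^ (1 - 4 / 3 * η) := mul_le_mul_of_nonneg_right g2 hpos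
        _ = N := by
            rw [← Real.rpow_add hN0]
            have : 4 / 3 * η + (1 - 4 / 3 * η) = 1 := by ring
            rw [this, Real.rpow_one]
    refine ⟨s1, s2, ?_, ?_, ?_, ?_, ?_, ?_⟩
    · have e1 : (N ^ (1 / 2 - η)) ^ 3 ≤ (Q : ℝ) ^ 3 := pow_le_pow_left₀ (Real.rpow_nonneg hN0.le _) hQ1 3
      rw [hcu] at e1
      refine le_trans ?_ e1
      calc 4 * (V : ℝ) ≤ 2 * S := by linarith
        _ ≤ 16 * (B : ℝ) ^ 2 * N ^ (1 - 4 / 3 * η) := by linarith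
        _ ≤ N ^ (1 / 4 : ℝ) * N ^ (1 - 4 / 3 * η) := by
            apply mul_le_mul_of_nonneg_right _ hpos
            linarith
        _ = N ^ (1 / 4 + (1 - 4 / 3 * η)) := (Real.rpow_add hN0 _ _).symm
        _ ≤ N ^ (3 * (1 / 2 - η)) := Real.rpow_le_rpow_of_exponent_le gN (by linarith)
    · have e1 := hp.L2
      have e2 : N ^ (1 / 2 - 2 / 3 * η) ≤ √S := by
        apply Real.le_sqrt_of_sq_le
        rw [hsq]
        have : 2 * (1 / 2 - 2 / 3 * η) = 1 - 4 / 3 * η := by ring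
        rw [this]
        exact s1
      have e3 : N ^ (η / 12) * N ^ (1 / 2 - 3 / 4 * η) = N ^ (1 / 2 - 2 / 3 * η) := by
        rw [← Real.rpow_add hN0]
        congr 1
        ring
      have e4 : 200 * (E : ℝ) * N ^ (1 / 2 - 3 / 4 * η) ≤ 200 * E * L := by
        calc 200 * (E : ℝ) * N ^ (1 / 2 - 3 / 4 * η) ≤ N ^ (η / 12) * N ^ (1 / 2 - 3 / 4 * η) :=
              mul_le_mul_of_nonneg_right g1 (Real.rpow_nonneg hN0.le _)
          _ = N ^ (1 / 2 - 2 / 3 * η) := e3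
          _ ≤ √S := e2
          _ ≤ 200 * E * L := e1
      exact le_of_mul_le_mul_left e4 (by positivity)
    · have e1 := hp.V2
      have e3 : N ^ (η / 12) * N ^ (η / 12) * N ^ (1 - 3 / 2 * η) = N ^ (1 - 4 / 3 * η) := by
        rw [← Real.rpow_add hN0, ← Real.rpow_add hN0]
        congr 1
        ring
      have e5 : 4 * (E : ℝ) ≤ N ^ (η / 12) * N ^ (η / 12) := by
        have e6 : (1 : ℝ) ≤ N ^ (η / 12) := by linarith
        nlinarith
      have e4 : 4 * (E : ℝ) * N ^ (1 - 3 / 2 * η) ≤ 4 * E * V := by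
        calc 4 * (E : ℝ) * N ^ (1 - 3 / 2 * η) ≤ N ^ (η / 12) * N ^ (η / 12) * N ^ (1 - 3 / 2 * η) :=
              mul_le_mul_of_nonneg_right e5 (Real.rpow_nonneg hN0.le _)
          _ = N ^ (1 - 4 / 3 * η) := e3
          _ ≤ S := s1
          _ ≤ 4 * E * V := e1
      exact le_of_mul_le_mul_left e4 (by positivity)
    · have e1 := hp.L1
      have e2 : √S ≤ N := by
        rw [Real.sqrt_le_left hN0.le]
        nlinarith
      nlinarith
    · linarith [hp.S0]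
    · have e1 : N ^ (1 / 4 : ℝ) ≤ N ^ (1 / 2 - η) := Real.rpow_le_rpow_of_exponent_le gN (by linarith)
      linarith

end Pool.Agent.RF
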