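import Pool.Agent.helper33.RF.SpecL

set_option autoImplicit false

/-!
# RF (MP_16912e_nt), STAGE 2, row rf:YNV: bounded valuations
-/

namespace Pool.Agent.RF

open NumberField

open scoped QuadraticAlgebra

theorem YNV_star {a b : OO} (h : IsCoprime a b) : IsCoprime (star a) (star b) := h.map (starRingEnd OO)

theorem YNV_r5 : r5 * r5 = (5 : OO) := by
  ext <;> rfl

theorem YNV_ph : ph * (ph - 1) = (1 : OO) := by
  ext <;> rfl

theorem YNV_phs : star ph = 1 - ph := by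
  ext <;> simp [ph]

theorem YNV_sub (n : OO) : n - star n = (n.im : OO) * r5 := by
  ext
  · simp [r5]
  · simp [r5]
    ring

theorem YNV_re (n : OO) : ((n.re : ℤ) : OO) = n - (n.im : OO) * ph := by
  ext <;> simp [ph]

theorem YNV_25 : star (25 : OO) = 25 := by
  ext <;> simp

theorem YNV_starint (a : ℤ) : star (a : OO) = a := by
  ext <;> simp

/-- the data at the prime element -/
theorem YNV_pi (hYPL : YPL_stmt) (l : ℕ) (hl : l.Prime) (h5 : l ≠ 5) (π : OO) (hπ : Prime π) (hd : π ∣ (l : OO)) :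
    ¬ π ^ 2 ∣ (l : OO) ∧ ∀ m : ℤ, π ∣ (m : OO) → (l : ℤ) ∣ m := by
  obtain ⟨S, -, h1, h2, -⟩ := hYPL l hl h5
  obtain ⟨π₁, hS, ha⟩ := h2 π hπ hd
  obtain ⟨-, -, h3, h4⟩ := h1 π₁ hS
  refine ⟨fun h => h3 (((ha.pow_pow (n := 2)).dvd_iff_dvd_left).1 h), fun m hm => h4 m ((ha.dvd_iff_dvd_left).1 hm)⟩

theorem YNV_vl (hYVM : YVM_stmt) (l : ℕ) (π : OO) (hπ : Prime π) (h2 : ¬ π ^ 2 ∣ (l : OO)) (c : ℕ) : ¬ π ^ (c + 1) ∣ (l : OO) ^ c := by
  induction c with
  | zero =>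
    rw [zero_add, pow_one, pow_zero]
    exact hπ.not_dvd_one
  | succ c ih =>
    rw [pow_succ (l : OO)]
    exact (hYVM π hπ).2.1 _ _ c 1 ih h2

/-- the valuation of the content -/
theorem YNV_vg (hYVM : YVM_stmt) (l : ℕ) (hl : l.Prime) (π : OO) (hπ : Prime π) (hd : π ∣ (l : OO)) (h2 : ¬ π ^ 2 ∣ (l : OO))
    (hint : ∀ m : ℤ, π ∣ (m : OO) → (l : ℤ) ∣ m) (g : ℕ) (hg : g ≠ 0) :
    π ^ (g.factorization l) ∣ (g : OO) ∧ ¬ π ^ (g.factorization l + 1) ∣ (g : OO) := by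
  obtain ⟨c, hc⟩ : ∃ c, c = g.factorization l := ⟨_, rfl⟩
  have h3 : l ^ c ∣ g := by
    rw [hc]
    exact Nat.ordProj_dvd g l
  obtain ⟨g', hg'⟩ := h3
  have h4 : ¬ l ∣ g' := by
    intro h
    have h5 : l ^ (c + 1) ∣ g := by
      rw [hg', pow_succ]
      exact Nat.mul_dvd_mul_left _ h
    have h6 := (hl.pow_dvd_iff_le_factorization hg).1 h5
    omega
  rw [← hc, hg']
  push_cast
  refine ⟨dvd_mul_of_dvd_left (pow_dvd_pow_of_dvd hd c) _, ?_⟩
  have h5 : ¬ π ^ (0 + 1) ∣ (g' : OO) := by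
    rw [zero_add, pow_one]
    intro h
    have h6 := hint (g' : ℤ) (by push_cast; exact h)
    exact h4 (by exact_mod_cast h6)
  exact (hYVM π hπ).2.1 _ _ c 0 (YNV_vl hYVM l π hπ h2 c) h5

/-- the content -/
theorem YNV_ct (p : Pt) (hp : IsPt p) : ct p ≠ 0 ∧ ∃ n₁ : OO, p.n = (ct p : OO) * n₁ ∧ Int.gcd n₁.re n₁.im = 1 := by
  have h0 : ct p ≠ 0 := by
    unfold ct
    intro h
    rw [Int.gcd_eq_zero_iff] at h
    obtain ⟨u, hu⟩ := hp.n1
    have h1 := congrArg QuadraticAlgebra.re hu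
    have h2 := h.1
    simp at h1
    omega
  have hpos : 0 < Int.gcd p.n.re p.n.im := Nat.pos_of_ne_zero h0
  refine ⟨h0, ⟨p.n.re / (ct p : ℤ), p.n.im / (ct p : ℤ)⟩, ?_, ?_⟩
  · have e1 : (ct p : ℤ) * (p.n.re / (ct p : ℤ)) = p.n.re := Int.mul_ediv_cancel' (Int.gcd_dvd_left _ _)
    have e2 : (ct p : ℤ) * (p.n.im / (ct p : ℤ)) = p.n.im := Int.mul_ediv_cancel' (Int.gcd_dvd_right _ _)
    ext
    · simp [e1]
    · simp [e2]
  · exact Int.gcd_ediv_gcd_ediv_gcd hpos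

theorem YNV (hTRA : TRA_stmt) (hYVM : YVM_stmt) (hYPL : YPL_stmt) : YNV_stmt := by
  intro p hp l j hl hl2 hl5 hj hlD π hπ hπl
  obtain ⟨hπ2, hint⟩ := YNV_pi hYPL l hl hl5 π hπ hπl
  obtain ⟨V1, V2, V3⟩ := hYVM π hπ
  obtain ⟨hg0, n₁, hn, hgcd⟩ := YNV_ct p hp
  obtain ⟨vg1, vg2⟩ := YNV_vg hYVM l hl π hπ hπl hπ2 hint (ct p) hg0
  obtain ⟨c, hc⟩ : ∃ c, c = (ct p).factorization l := ⟨_, rfl⟩
  rw [← hc] at vg1 vg2 hj ⊢
  obtain ⟨t1, t2, -⟩ := hTRA p hp
  have hns : star p.n = (ct p : OO) * star n₁ := by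
    have e0 : star ((ct p : ℕ) : OO) = ((ct p : ℕ) : OO) := by
      have := YNV_starint (ct p : ℤ)
      push_cast at this
      exact this
    rw [hn, star_mul', e0]
  -- integers prime to l
  have hm : ∀ m : ℤ, ¬ (l : ℤ) ∣ m → ¬ π ∣ (m : OO) := fun m h1 h2 => h1 (hint m h2)
  have hlp : ∀ q : ℕ, q.Prime → l ≠ q → ¬ (l : ℤ) ∣ (q : ℤ) := by
    intro q hq hne h
    exact hne ((Nat.prime_dvd_prime_iff_eq hl hq).1 (by exact_mod_cast h))
  have h5 : ¬ π ∣ (5 : OO) := by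
    have := hm 5 (hlp 5 (by norm_num) hl5)
    push_cast at this
    exact this
  have h2 : ¬ π ∣ (2 : OO) := by
    have := hm 2 (hlp 2 (by norm_num) hl2)
    push_cast at this
    exact this
  have h25 : ¬ π ∣ (25 : OO) := by
    intro h
    have e : (25 : OO) = 5 * 5 := by norm_num
    rw [e] at h
    rcases hπ.dvd_or_dvd h with h | h <;> exact h5 h
  have hph : ¬ π ∣ ph := by
    intro h
    exact hπ.not_dvd_one (by rw [← YNV_ph]; exact dvd_mul_of_dvd_left h _)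
  have hphs : ¬ π ∣ star ph := by
    intro h
    rw [YNV_phs] at h
    exact hπ.not_dvd_one (by
      rw [← YNV_ph]
      have e : (ph - 1 : OO) = -(1 - ph) := by ring
      rw [e]
      exact dvd_mul_of_dvd_right (dvd_neg.2 h) _)
  have hcop : ∀ a b : OO, IsCoprime a b → π ∣ b → ¬ π ∣ a := by
    rintro a b ⟨u, v, huv⟩ hb ha
    apply hπ.not_dvd_one
    rw [← huv]
    exact dvd_add (dvd_mul_of_dvd_right ha _) (dvd_mul_of_dvd_right hb _)
  -- not both
  have hnb : ¬ (π ∣ n₁ ∧ π ∣ star n₁) := by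
    rintro ⟨ha, hb⟩
    have h3 : π ∣ (n₁.im : OO) * r5 := by
      rw [← YNV_sub]
      exact dvd_sub ha hb
    have h4 : π ∣ ((5 * n₁.im : ℤ) : OO) := by
      have e : ((5 * n₁.im : ℤ) : OO) = ((n₁.im : OO) * r5) * r5 := by
        rw [mul_assoc, YNV_r5]
        push_cast
        ring
      rw [e]
      exact dvd_mul_of_dvd_left h3 _
    have h6 : (l : ℤ) ∣ n₁.im := by
      rcases (Nat.prime_iff_prime_int.1 hl).dvd_or_dvd (hint _ h4) with h | h
      · exact absurd h (hlp 5 (by norm_num) hl5)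
      · exact h
    have h7 : π ∣ (n₁.im : OO) := by
      obtain ⟨w, hw⟩ := h6
      rw [hw]
      push_cast
      exact dvd_mul_of_dvd_left hπl _
    have h8 : (l : ℤ) ∣ n₁.re := by
      apply hint
      rw [YNV_re]
      exact dvd_sub ha (dvd_mul_of_dvd_left h7 _)
    have h9 : l ∣ Int.gcd n₁.re n₁.im := Int.dvd_gcd h8 h6
    rw [hgcd] at h9
    exact hl.one_lt.ne' (Nat.dvd_one.1 h9)
  have hp1 : ∀ x : OO, ¬ π ∣ x → ¬ π ^ (0 + 1) ∣ x := by
    intro x hx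
    rwa [zero_add, pow_one]
  -- D
  have hD : π ^ (4 * c + 1) ∣ (p.D : OO) := by
    obtain ⟨w, hw⟩ := hlD
    rw [hw]
    push_cast
    refine dvd_mul_of_dvd_left ?_ _
    exact (pow_dvd_pow π (by omega)).trans (pow_dvd_pow_of_dvd hπl _)
  have hvn : π ^ c ∣ p.n := by
    rw [hn]
    exact dvd_mul_of_dvd_left vg1 _
  have hvns : π ^ c ∣ star p.n := by
    rw [hns]
    exact dvd_mul_of_dvd_left vg1 _
  have ht2 : p.M * star p.M = -(ph * star p.n * (25 * p.k) ^ 2 + star ph * p.n * star (25 * p.k) ^ 2) := by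
    rw [t2, star_mul', star_mul', star_star, star_pow]
  -- the end
  have fin : ¬ π ^ (2 * c + 1) ∣ 2 * p.X * star (25 * p.k) → π ^ (4 * c + 1) ∣ p.n ^ 2 * star p.n → False := by
    intro h3 h4
    have h6 : ¬ π ^ (2 * c + 1) ∣ p.X := by
      intro h
      apply h3
      exact dvd_mul_of_dvd_left (dvd_mul_of_dvd_right h _) _
    have h7 := V2 p.X p.X (2 * c) (2 * c) h6 h6
    apply h7
    have e : p.X * p.X = p.n ^ 2 * star p.n - w2 * (p.D : OO) * (25 * p.k) ^ 2 := by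
      rw [← hp.e1]
      ring
    have e' : 2 * c + 2 * c + 1 = 4 * c + 1 := by ring
    rw [e, e']
    exact dvd_sub h4 (dvd_mul_of_dvd_left (dvd_mul_of_dvd_right hD _) _)
  constructor
  · -- CASE 2
    intro h
    have h3 : π ∣ n₁ := by
      rw [hn, mul_comm (ct p : OO) n₁] at h
      have h4 := V1 n₁ (ct p : OO) (2 * c + 1) c h vg2
      have e : 2 * c + 1 - c = c + 1 := by omega
      rw [e] at h4
      exact (dvd_pow_self π (by omega)).trans h4
    have h4 : ¬ π ∣ star n₁ := fun h' => hnb ⟨h3, h'⟩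
    have hπn : π ∣ p.n := by
      rw [hn]
      exact dvd_mul_of_dvd_right h3 _
    have hvs : ¬ π ^ (c + 1) ∣ star p.n := by
      rw [hns]
      have := V2 _ _ c 0 vg2 (hp1 _ h4)
      exact this
    have hk : ¬ π ∣ p.k := hcop _ _ hp.kn hπn
    have hks : ¬ π ∣ star p.k := by
      refine hcop (star p.k) p.n ?_ hπn
      have := YNV_star hp.kn'
      rwa [star_star] at this
    have hK : ¬ π ∣ 25 * p.k := fun h' => (hπ.dvd_or_dvd h').elim h25 hk
    have hK2 : ¬ π ∣ (25 * p.k) ^ 2 := fun h' => hK (hπ.dvd_of_dvd_pow h')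
    have hT1 : ¬ π ^ (c + 1) ∣ ph * star p.n * (25 * p.k) ^ 2 := by
      have a1 := V2 _ _ 0 c (hp1 _ hph) hvs
      have a2 := V2 _ _ (0 + c) 0 a1 (hp1 _ hK2)
      have e : 0 + c + 0 + 1 = c + 1 := by ring
      rw [e] at a2
      exact a2
    have hT2 : π ^ (c + 1) ∣ star ph * p.n * star (25 * p.k) ^ 2 :=
      dvd_mul_of_dvd_left (dvd_mul_of_dvd_right ((pow_dvd_pow π (by omega)).trans h) _) _
    have hMM : ¬ π ^ (c + 1) ∣ p.M * star p.M := by
      rw [ht2, dvd_neg]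
      exact V3 _ _ _ hT2 hT1
    have hMs : ¬ π ^ (c + 1) ∣ star p.M := fun h' => hMM (dvd_mul_of_dvd_right h' _)
    have h6 : ¬ π ^ (2 * c + 1) ∣ ph * star p.n * star p.M := by
      have a1 := V2 _ _ 0 c (hp1 _ hph) hvs
      have a2 := V2 _ _ (0 + c) c a1 hMs
      have e : 0 + c + c + 1 = 2 * c + 1 := by ring
      rw [e] at a2
      exact a2
    have h7 : ¬ π ^ (2 * c + 1) ∣ 2 * p.X * star (25 * p.k) := by
      have a1 : π ^ (2 * c + 1) ∣ p.n * p.M := dvd_mul_of_dvd_left h _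
      have a2 := V3 _ _ _ a1 h6
      rw [add_comm (ph * star p.n * star p.M) (p.n * p.M), t1, dvd_neg] at a2
      exact a2
    refine fin h7 ?_
    have e : 4 * c + 1 ≤ (2 * c + 1) * 2 + c := by omega
    refine (pow_dvd_pow π e).trans ?_
    rw [pow_add, pow_mul]
    exact mul_dvd_mul (pow_dvd_pow_of_dvd h 2) hvns
  · -- CASE 1
    intro h
    have h3 : π ∣ star n₁ := by
      rw [hns, mul_comm (ct p : OO) (star n₁)] at h
      have h4 := V1 (star n₁) (ct p : OO) (2 * c + 1) c h vg2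
      have e : 2 * c + 1 - c = c + 1 := by omega
      rw [e] at h4
      exact (dvd_pow_self π (by omega)).trans h4
    have h4 : ¬ π ∣ n₁ := fun h' => hnb ⟨h', h3⟩
    have hπn : π ∣ star p.n := by
      rw [hns]
      exact dvd_mul_of_dvd_right h3 _
    have hvs : ¬ π ^ (c + 1) ∣ p.n := by
      rw [hn]
      have := V2 _ _ c 0 vg2 (hp1 _ h4)
      exact this
    have hks : ¬ π ∣ star p.k := hcop _ _ (YNV_star hp.kn) hπn
    have hKs : ¬ π ∣ star (25 * p.k) := by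
      rw [star_mul', YNV_25]
      exact fun h' => (hπ.dvd_or_dvd h').elim h25 hks
    have hK2 : ¬ π ∣ star (25 * p.k) ^ 2 := fun h' => hKs (hπ.dvd_of_dvd_pow h')
    have hT2 : ¬ π ^ (c + 1) ∣ star ph * p.n * star (25 * p.k) ^ 2 := by
      have a1 := V2 _ _ 0 c (hp1 _ hphs) hvs
      have a2 := V2 _ _ (0 + c) 0 a1 (hp1 _ hK2)
      have e : 0 + c + 0 + 1 = c + 1 := by ring
      rw [e] at a2
      exact a2
    have hT1 : π ^ (c + 1) ∣ ph * star p.n * (25 * p.k) ^ 2 :=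
      dvd_mul_of_dvd_left (dvd_mul_of_dvd_right ((pow_dvd_pow π (by omega)).trans h) _) _
    have hMM : ¬ π ^ (c + 1) ∣ p.M * star p.M := by
      rw [ht2, dvd_neg, add_comm (ph * star p.n * (25 * p.k) ^ 2) (star ph * p.n * star (25 * p.k) ^ 2)]
      exact V3 _ _ _ hT1 hT2
    have hMs : ¬ π ^ (c + 1) ∣ p.M := fun h' => hMM (dvd_mul_of_dvd_left h' _)
    have h6 : ¬ π ^ (2 * c + 1) ∣ p.n * p.M := by
      have a1 := V2 _ _ c c hvs hMs
      have e : c + c + 1 = 2 * c + 1 := by ring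
      rw [e] at a1
      exact a1
    have h7 : ¬ π ^ (2 * c + 1) ∣ 2 * p.X * star (25 * p.k) := by
      have a1 : π ^ (2 * c + 1) ∣ ph * star p.n * star p.M := dvd_mul_of_dvd_left (dvd_mul_of_dvd_right h _) _
      have a2 := V3 _ _ _ a1 h6
      rw [t1, dvd_neg] at a2
      exact a2
    refine fin h7 ?_
    have e : 4 * c + 1 ≤ c * 2 + (2 * c + 1) := by omega
    refine (pow_dvd_pow π e).trans ?_
    rw [pow_add, pow_mul]
    exact mul_dvd_mul (pow_dvd_pow_of_dvd hvn 2) h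

end Pool.Agent.RF
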